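import Pool.Agent.H564R3.TE.Defs
import Pool.Agent.H564R3.TS.Count

/-! Task C: counting labelled trees through histories. -/

set_option autoImplicit false
set_option linter.unusedSectionVars false

namespace Pool.Agent.H564R3.TE

open Finset
open Pool.Agent.H564R3.TS

section Count

variable {Ω ρ : Type}

/-- the labels of the layers in `L` -/
def C_g {m : ℕ} (lab : Ω → ℕ → Fin m) (L : Finset ℕ) (ω : Ω) : Finset (ℕ × Fin m) :=
  L.image (fun l => (l, lab ω l))

theorem C_g_union {m : ℕ} (lab : Ω → ℕ → Fin m) (L L' : Finset ℕ) (ω : Ω) :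
    C_g lab (L ∪ L') ω = C_g lab L ω ∪ C_g lab L' ω := image_union _ _

theorem C_g_card {m : ℕ} (lab : Ω → ℕ → Fin m) (L : Finset ℕ) (S : Finset Ω) :
    (S.image (C_g lab L)).card ≤ m ^ L.card := by
  classical
  have h1 : S.image (C_g lab L) ⊆
      (univ : Finset (L → Fin m)).image (fun φ => univ.image (fun l : L => ((l : ℕ), φ l))) := by
    intro B hB
    rw [mem_image] at hB
    obtain ⟨ω, _, rfl⟩ := hB
    rw [mem_image]
    refine ⟨fun l => lab ω l, mem_univ _, ?_⟩
    ext ⟨l, v⟩
    simp only [C_g, mem_image, mem_univ, true_and, Prod.mk.injEq]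
    constructor
    · rintro ⟨⟨l', hl'⟩, h1, h2⟩
      exact ⟨l', hl', h1, h2⟩
    · rintro ⟨l', hl', h1, h2⟩
      exact ⟨⟨l', hl'⟩, h1, h2⟩
  refine (card_le_card h1).trans (card_image_le.trans ?_)
  rw [card_univ, Fintype.card_fun, Fintype.card_fin, Fintype.card_coe]

theorem C_g_mul {m : ℕ} (lab : Ω → ℕ → Fin m) (L L' : Finset ℕ) (S : Finset Ω) :
    (S.image (C_g lab (L ∪ L'))).card ≤ (S.image (C_g lab L)).card * (S.image (C_g lab L')).card := by
  classical
  rw [← card_product]
  have h1 : S.image (C_g lab (L ∪ L')) ⊆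
      ((S.image (C_g lab L)) ×ˢ (S.image (C_g lab L'))).image (fun q => q.1 ∪ q.2) := by
    intro B hB
    rw [mem_image] at hB
    obtain ⟨ω, hω, rfl⟩ := hB
    rw [mem_image]
    exact ⟨(C_g lab L ω, C_g lab L' ω), mem_product.2 ⟨mem_image_of_mem _ hω,
      mem_image_of_mem _ hω⟩, (C_g_union lab L L' ω).symm⟩
  exact (card_le_card h1).trans card_image_le

/-- `M` is the set of nodes of a subtree with root `x` -/
def Conn (par : ℕ → ℕ) (x : ℕ) (M : Finset ℕ) : Prop :=
  x ∈ M ∧ ∀ v ∈ M, v ≠ x → 1 ≤ v ∧ par v ∈ M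

theorem C_ge {par : ℕ → ℕ} (hpar : IsPar par) {x : ℕ} {M : Finset ℕ} (h : Conn par x M) :
    ∀ v ∈ M, x ≤ v := by
  intro v
  induction v using Nat.strong_induction_on with
  | _ v ih =>
  intro hv
  by_cases hvx : v = x
  · exact hvx.ge
  · obtain ⟨h1, h2⟩ := h.2 v hv hvx
    exact (ih (par v) (hpar v h1) h2).trans (hpar v h1).le

/-- every node has a last node of `C` or the root above it -/
theorem C_top {par : ℕ → ℕ} (hpar : IsPar par) {x : ℕ} {M : Finset ℕ} (h : Conn par x M)
    (C : Finset ℕ) : ∃ top : ℕ → ℕ, (∀ v ∈ M, top v ∈ insert x C) ∧ (∀ v ∈ insert x C, top v = v) ∧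
      ∀ v ∈ M, v ∉ insert x C → 1 ≤ v ∧ par v ∈ M ∧ top v = top (par v) := by
  classical
  have hex : ∀ v : ℕ, ∃ t : ℕ, (v ∈ M → t ∈ insert x C) ∧ (v ∈ insert x C → t = v) := by
    intro v
    by_cases h1 : v ∈ insert x C
    · exact ⟨v, fun _ => h1, fun _ => rfl⟩
    · exact ⟨x, fun _ => mem_insert_self _ _, fun h2 => absurd h2 h1⟩
  -- define top by iteration of the parent function
  let step : ℕ → ℕ := fun v => if v ∈ insert x C then v else par v
  refine ⟨fun v => step^[v + 1] v, ?_, ?_, ?_⟩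
  · have hstab : ∀ k v, v ∈ insert x C → step^[k] v = v := by
      intro k
      induction k with
      | zero => intro v _; rfl
      | succ k ih =>
        intro v hv
        rw [Function.iterate_succ_apply]
        have : step v = v := if_pos hv
        rw [this]
        exact ih v hv
    have hgen : ∀ v, v ∈ M → ∀ k, v < k → step^[k] v ∈ insert x C := by
      intro v
      induction v using Nat.strong_induction_on with
      | _ v ih =>
      intro hv k hk
      by_cases h1 : v ∈ insert x C
      · rw [hstab k v h1]; exact h1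
      · have hvx : v ≠ x := fun e => h1 (e ▸ mem_insert_self _ _)
        obtain ⟨h2, h3⟩ := h.2 v hv hvx
        obtain ⟨k, rfl⟩ : ∃ k', k = k' + 1 := ⟨k - 1, by omega⟩
        rw [Function.iterate_succ_apply]
        have h4 : step v = par v := if_neg h1
        rw [h4]
        have h5 := hpar v h2
        exact ih (par v) h5 h3 k (by omega)
    exact fun v hv => hgen v hv (v + 1) (by omega)
  · intro v hv
    have hstab : ∀ k, step^[k] v = v := by
      intro k
      induction k with
      | zero => rfl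
      | succ k ih =>
        rw [Function.iterate_succ_apply]
        have : step v = v := if_pos hv
        rw [this, ih]
    exact hstab _
  · intro v hv h1
    have hvx : v ≠ x := fun e => h1 (e ▸ mem_insert_self _ _)
    obtain ⟨h2, h3⟩ := h.2 v hv hvx
    refine ⟨h2, h3, ?_⟩
    have h4 : step v = par v := if_neg h1
    show step^[v + 1] v = step^[par v + 1] (par v)
    rw [Function.iterate_succ_apply, h4]
    -- both iterates have reached the fixed point
    have hstab : ∀ k v, v ∈ insert x C → step^[k] v = v := by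
      intro k
      induction k with
      | zero => intro v _; rfl
      | succ k ih =>
        intro v hv
        rw [Function.iterate_succ_apply]
        have : step v = v := if_pos hv
        rw [this]
        exact ih v hv
    have hgen : ∀ v, v ∈ M → ∀ k l, v < k → v < l → step^[k] v = step^[l] v := by
      intro v
      induction v using Nat.strong_induction_on with
      | _ v ih =>
      intro hv k l hk hl
      by_cases h1 : v ∈ insert x C
      · rw [hstab k v h1, hstab l v h1]
      · have hvx : v ≠ x := fun e => h1 (e ▸ mem_insert_self _ _)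
        obtain ⟨h2, h3⟩ := h.2 v hv hvx
        obtain ⟨k, rfl⟩ : ∃ k', k = k' + 1 := ⟨k - 1, by omega⟩
        obtain ⟨l, rfl⟩ : ∃ l', l = l' + 1 := ⟨l - 1, by omega⟩
        rw [Function.iterate_succ_apply, Function.iterate_succ_apply]
        have h4 : step v = par v := if_neg h1
        rw [h4]
        have h5 := hpar v h2
        exact ih (par v) h5 h3 k l (by omega) (by omega)
    exact hgen (par v) h3 v (par v + 1) (hpar v h2) (by omega)

/-- a tree with few cuts has a large piece without cuts -/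
theorem C_split {par : ℕ → ℕ} (hpar : IsPar par) {x : ℕ} {M : Finset ℕ} (h : Conn par x M)
    (C : Finset ℕ) (hC : C ⊆ M.erase x) :
    ∃ y M', M' ⊆ M ∧ Conn par y M' ∧ Disjoint C (M'.erase y) ∧
      M.card ≤ (C.card + 1) * M'.card := by
  classical
  obtain ⟨top, h1, h2, h3⟩ := C_top hpar h C
  have hxC : x ∉ C := fun hx => (mem_erase.1 (hC hx)).1 rfl
  have hcard : (insert x C).card = C.card + 1 := card_insert_of_notMem hxC
  have hsub : insert x C ⊆ M := by
    intro v hv
    rcases mem_insert.1 hv with rfl | hv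
    · exact h.1
    · exact mem_of_mem_erase (hC hv)
  obtain ⟨y, hy, hyc⟩ : ∃ y ∈ insert x C,
      M.card ≤ (C.card + 1) * (M.filter (fun v => top v = y)).card := by
    by_contra hcon
    push Not at hcon
    have h4 : M.card = ∑ y ∈ insert x C, (M.filter (fun v => top v = y)).card :=
      card_eq_sum_card_fiberwise (fun v hv => h1 v hv)
    have h5 : (C.card + 1) * M.card = ∑ y ∈ insert x C,
        (C.card + 1) * (M.filter (fun v => top v = y)).card := by
      conv_lhs => rw [h4]
      rw [mul_sum]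
    have h6 : ∑ y ∈ insert x C, (C.card + 1) * (M.filter (fun v => top v = y)).card <
        ∑ y ∈ insert x C, M.card :=
      sum_lt_sum_of_nonempty (insert_nonempty _ _) hcon
    rw [sum_const, hcard, smul_eq_mul, ← h5] at h6
    exact lt_irrefl _ h6
  refine ⟨y, M.filter (fun v => top v = y), filter_subset _ _, ⟨?_, ?_⟩, ?_, hyc⟩
  · exact mem_filter.2 ⟨hsub hy, h2 y hy⟩
  · intro v hv hvy
    rw [mem_filter] at hv
    have h4 : v ∉ insert x C := fun h5 => hvy ((h2 v h5).symm.trans hv.2)
    obtain ⟨h5, h6, h7⟩ := h3 v hv.1 h4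
    exact ⟨h5, mem_filter.2 ⟨h6, h7 ▸ hv.2⟩⟩
  · rw [disjoint_left]
    intro v hv hv'
    rw [mem_erase, mem_filter] at hv'
    exact hv'.1 ((h2 v (mem_insert_of_mem hv)).symm.trans hv'.2.2)

/-- the cuts of `D` in the window -/
def C_cut (par : ℕ → ℕ) (D : Finset ℕ) (x : ℕ) (M : Finset ℕ) : Finset ℕ :=
  (M.erase x).filter (fun v => (v ∈ D ∧ par v ∉ D) ∨ (v ∉ D ∧ par v ∈ D))

theorem C_const {par : ℕ → ℕ} (hpar : IsPar par) {D : Finset ℕ} {x y : ℕ} {M M' : Finset ℕ}
    (hx : ∀ v ∈ M', v ≠ y → v ≠ x) (hM : M' ⊆ M) (h : Conn par y M')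
    (hd : Disjoint (C_cut par D x M) (M'.erase y)) :
    ∀ v ∈ M', (v ∈ D ↔ y ∈ D) := by
  intro v
  induction v using Nat.strong_induction_on with
  | _ v ih =>
  intro hv
  by_cases hvy : v = y
  · rw [hvy]
  · obtain ⟨h1, h2⟩ := h.2 v hv hvy
    rw [← ih (par v) (hpar v h1) h2]
    by_contra h3
    have h4 : v ∈ C_cut par D x M := by
      rw [C_cut, mem_filter, mem_erase]
      refine ⟨⟨hx v hv hvy, hM hv⟩, ?_⟩
      by_cases h5 : v ∈ D <;> by_cases h6 : par v ∈ D
      · exact absurd (iff_of_true h5 h6) h3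
      · exact Or.inl ⟨h5, h6⟩
      · exact Or.inr ⟨h5, h6⟩
      · exact absurd (iff_of_false h5 h6) h3
    exact disjoint_left.1 hd h4 (mem_erase.2 ⟨hvy, hv⟩)

/-- the condition on a window -/
def C_cond (J : ℕ → ρ → Finset ℕ) (a b : ℕ) (M : Finset ℕ) : Prop :=
  ∃ i, M ⊆ J b i ∧ ∀ j, Disjoint (J a j) M

/-- the condition for naming register `j` -/
def C_name (J : ℕ → ρ → Finset ℕ) (a t b : ℕ) (M : Finset ℕ) (j : ρ) : Prop :=
  ¬ Disjoint (J t j) M ∧ ¬ M ⊆ J t j ∧ C_cond J a b M

theorem C_cases (J : ℕ → ρ → Finset ℕ) (a t b : ℕ) (M : Finset ℕ) (h : C_cond J a b M) :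
    C_cond J t b M ∨ C_cond J a t M ∨ ∃ j, C_name J a t b M j := by
  obtain ⟨i, h1, h2⟩ := h
  by_cases h3 : ∀ j, Disjoint (J t j) M
  · exact Or.inl ⟨i, h1, h3⟩
  · right
    push Not at h3
    obtain ⟨j, hj⟩ := h3
    by_cases h4 : M ⊆ J t j
    · exact Or.inl ⟨j, h4, h2⟩
    · exact Or.inr ⟨j, hj, h4, i, h1, h2⟩

theorem C_main [Fintype ρ] {m n N : ℕ} {par : ℕ → ℕ} (hpar : IsPar par) (Φ : Finset Ω)
    (lab : Ω → ℕ → Fin m) (J : Ω → ℕ → ρ → Finset ℕ) (hJ : ∀ ω ∈ Φ, Hist N (range n) (J ω))
    (hty : ∀ ω ∈ Φ, ∀ ω' ∈ Φ, ∀ t ≤ N, ∀ i, (J ω t i).Nonempty → (J ω' t i).Nonempty →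
      J ω t i = J ω' t i ∧ ∀ v, 1 ≤ v → v < n →
        ((v ∈ J ω t i ∧ par v ∉ J ω t i) ∨ (v ∉ J ω t i ∧ par v ∈ J ω t i)) →
        lab ω v = lab ω' v) (hK : 1 ≤ Fintype.card ρ) (h : ℕ) :
    (h + 1) * Fintype.card ρ ≤ m → ∀ s : ℕ, ∀ (a x : ℕ) (M : Finset ℕ) (S : Finset Ω),
      M.card = s → a + 2 ^ h ≤ N → M ⊆ range n → Conn par x M →
      (∀ ω ∈ S, ω ∈ Φ ∧ C_cond (J ω) a (a + 2 ^ h) M) →
      (S.image (C_g lab (M.erase x))).card * m ^ Nat.clog 2 s ≤
        2 ^ h * ((h + 1) * Fintype.card ρ) ^ Nat.clog 2 s * m ^ (s - 1) := by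
  classical
  set K := Fintype.card ρ with hKdef
  induction h with
  | zero =>
    intro hm s a x M S hMs ha hMn hMc hS
    rcases S.eq_empty_or_nonempty with h0 | ⟨ω, hω⟩
    · subst h0
      simp
    · obtain ⟨hω1, i, h1, h2⟩ := hS ω hω
      have hxM : x ∈ M := hMc.1
      rw [pow_zero] at h1 ha
      have hs1 : s = 1 := by
        rcases (hJ ω hω1).down a (by omega) i with ⟨j, hj⟩ | ⟨j, l, hj⟩ | hj
        · have h3 := h1 hxM
          rw [hj] at h3
          exact absurd hxM (disjoint_left.1 (h2 j) h3)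
        · have h3 := h1 hxM
          rw [hj, mem_union] at h3
          rcases h3 with h3 | h3
          · exact absurd hxM (disjoint_left.1 (h2 j) h3)
          · exact absurd hxM (disjoint_left.1 (h2 l) h3)
        · have h3 := (card_le_card h1).trans hj
          have h4 : 0 < M.card := card_pos.2 ⟨x, hxM⟩
          omega
      have h4 := C_g_card lab (M.erase x) S
      have h5 : (M.erase x).card = 0 := by
        rw [card_erase_of_mem hxM]; omega
      rw [h5] at h4
      subst hs1
      simpa using h4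
  | succ h ihh =>
    intro hm s
    have hm' : (h + 1) * K ≤ m := le_trans (Nat.mul_le_mul_right _ (by omega)) hm
    have hm1 : 1 ≤ m := le_trans (Nat.mul_pos (by omega) hK) hm'
    replace ihh := ihh hm'
    induction s using Nat.strong_induction_on with
    | _ s ihs =>
    intro a x M S hMs ha hMn hMc hS
    have hs : 1 ≤ s := by
      rw [← hMs]
      exact card_pos.2 ⟨x, hMc.1⟩
    set t := a + 2 ^ h with ht
    have hb : a + 2 ^ (h + 1) = t + 2 ^ h := by rw [ht, pow_succ]; ring
    set b := a + 2 ^ (h + 1) with hbdef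
    have h2h : 0 < 2 ^ h := Nat.pow_pos (by norm_num)
    have htb : t ≤ b := by omega
    set κ := Nat.clog 2 s with hκ
    set f := C_g lab (M.erase x) with hf
    set SR := S.filter (fun ω => C_cond (J ω) t b M) with hSR
    set SL := S.filter (fun ω => C_cond (J ω) a t M) with hSL
    set SN : ρ → Finset Ω := fun j => S.filter (fun ω => C_name (J ω) a t b M j) with hSN
    have hsub : S ⊆ (SR ∪ SL) ∪ univ.biUnion SN := by
      intro ω hω
      have h1 := hS ω hω
      rcases C_cases (J ω) a t b M h1.2 with h2 | h2 | ⟨j, h2⟩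
      · exact mem_union_left _ (mem_union_left _ (mem_filter.2 ⟨hω, h2⟩))
      · exact mem_union_left _ (mem_union_right _ (mem_filter.2 ⟨hω, h2⟩))
      · exact mem_union_right _ (mem_biUnion.2 ⟨j, mem_univ j, mem_filter.2 ⟨hω, h2⟩⟩)
    have hcard : (S.image f).card ≤
        (SR.image f).card + (SL.image f).card + ∑ j, ((SN j).image f).card := by
      have h1 : S.image f ⊆ (SR.image f ∪ SL.image f) ∪ univ.biUnion (fun j => (SN j).image f) := by
        intro B hB
        rw [mem_image] at hB
        obtain ⟨A, hA, rfl⟩ := hB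
        have h2 := hsub hA
        rw [mem_union, mem_union, mem_biUnion] at h2
        rw [mem_union, mem_union, mem_biUnion]
        rcases h2 with (h2 | h2) | ⟨j, hj, h2⟩
        · exact Or.inl (Or.inl (mem_image_of_mem f h2))
        · exact Or.inl (Or.inr (mem_image_of_mem f h2))
        · exact Or.inr ⟨j, hj, mem_image_of_mem f h2⟩
      refine (card_le_card h1).trans ((card_union_le _ _).trans ?_)
      exact Nat.add_le_add (card_union_le _ _) card_biUnion_le
    have hR : (SR.image f).card * m ^ κ ≤ 2 ^ h * ((h + 1) * K) ^ κ * m ^ (s - 1) := by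
      refine ihh s t x M SR hMs (by omega) hMn hMc ?_
      intro ω hω
      rw [hSR, mem_filter] at hω
      refine ⟨(hS ω hω.1).1, ?_⟩
      rw [← hb]
      exact hω.2
    have hLe : (SL.image f).card * m ^ κ ≤ 2 ^ h * ((h + 1) * K) ^ κ * m ^ (s - 1) := by
      refine ihh s a x M SL hMs (by omega) hMn hMc ?_
      intro ω hω
      rw [hSL, mem_filter] at hω
      exact ⟨(hS ω hω.1).1, hω.2⟩
    have hN : ∀ j, ((SN j).Nonempty → 1 ≤ κ) ∧ ((SN j).image f).card * m ^ κ ≤
        2 ^ (h + 1) * ((h + 2) * K) ^ (κ - 1) * m ^ (s - 1) := by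
      intro j
      rcases (SN j).eq_empty_or_nonempty with h0 | ⟨ω₀, hω₀⟩
      · rw [h0]
        simp
      have hmemN : ∀ ω ∈ SN j, ω ∈ Φ ∧ C_name (J ω) a t b M j := by
        intro ω hω
        rw [hSN] at hω
        simp only [mem_filter] at hω
        exact ⟨(hS ω hω.1).1, hω.2⟩
      have hne : ∀ ω ∈ SN j, (J ω t j).Nonempty := by
        intro ω hω
        obtain ⟨_, h3, _⟩ := hmemN ω hω
        rw [nonempty_iff_ne_empty]
        intro h4
        rw [h4] at h3
        exact h3 (disjoint_empty_left _)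
      set D := J ω₀ t j with hD
      have hDeq : ∀ ω ∈ SN j, J ω t j = D ∧ ∀ v, 1 ≤ v → v < n →
          ((v ∈ D ∧ par v ∉ D) ∨ (v ∉ D ∧ par v ∈ D)) → lab ω v = lab ω₀ v := by
        intro ω hω
        have h1 := hty ω (hmemN ω hω).1 ω₀ (hmemN ω₀ hω₀).1 t (by omega) j (hne ω hω)
          (hne ω₀ hω₀)
        refine ⟨h1.1, ?_⟩
        rw [hD, ← h1.1]
        exact h1.2
      -- cuts
      obtain ⟨C, hC⟩ : ∃ C, C = C_cut par D x M := ⟨_, rfl⟩
      have hCsub : C ⊆ M.erase x := by
        rw [hC]; exact filter_subset _ _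
      obtain ⟨c, hc⟩ : ∃ c, c = C.card := ⟨_, rfl⟩
      obtain ⟨y, M', y1, y2, y4, y5⟩ := C_split hpar hMc C hCsub
      have hyx : ∀ v ∈ M', v ≠ y → v ≠ x := by
        intro v hv hvy hvx
        have h1 := C_ge hpar y2 v hv
        have h2 := C_ge hpar hMc y (y1 y2.1)
        omega
      have hconst := C_const hpar hyx y1 y2 (hC ▸ y4)
      have hcut : 1 ≤ c := by
        by_contra h1
        have h2 : C = ∅ := by
          rw [← card_eq_zero, ← hc]; omega
        have h3 := C_const hpar (D := D) (fun _ _ hv => hv) subset_rfl hMc (by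
          rw [← hC, h2]; exact disjoint_empty_left _)
        have h4 := (hmemN ω₀ hω₀).2
        by_cases hxD : x ∈ D
        · exact h4.2.1 fun l hl => (h3 l hl).2 hxD
        · refine h4.1 ?_
          rw [disjoint_right]
          exact fun l hl h5 => hxD ((h3 l hl).1 h5)
      obtain ⟨s', hs'⟩ : ∃ s', s' = M'.card := ⟨_, rfl⟩
      rw [← hs', ← hc, hMs] at y5
      have y3 : 1 ≤ s' := by
        rw [hs']
        exact card_pos.2 ⟨y, y2.1⟩
      have hMe : M'.erase y ⊆ M.erase x := by
        intro v hv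
        rw [mem_erase] at hv ⊢
        exact ⟨hyx v hv.2 hv.1, y1 hv.2⟩
      have hce : (M'.erase y).card = s' - 1 := by rw [card_erase_of_mem y2.1, hs']
      have hcE : (M.erase x).card = s - 1 := by rw [card_erase_of_mem hMc.1, hMs]
      have hcs : c + (s' - 1) ≤ s - 1 := by
        have h1 : (C ∪ M'.erase y).card = c + (s' - 1) := by
          rw [card_union_of_disjoint y4, ← hc, hce]
        rw [← h1, ← hcE]
        exact card_le_card (union_subset hCsub hMe)
      have hs's : s' < s := by omega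
      set κ' := Nat.clog 2 s' with hκ'
      have hκκ : κ ≤ κ' + c := by
        refine Nat.clog_le_of_le_pow ?_
        calc s ≤ (c + 1) * s' := y5
          _ ≤ 2 ^ c * 2 ^ κ' :=
              Nat.mul_le_mul Nat.lt_two_pow_self (Nat.le_pow_clog (by norm_num) _)
          _ = 2 ^ (κ' + c) := by rw [pow_add]; ring
      have hκ'κ : κ' ≤ κ := Nat.clog_mono_right _ hs's.le
      have hκ1 : 1 ≤ κ := Nat.clog_pos (by norm_num) (by omega)
      refine ⟨fun _ => hκ1, ?_⟩
      -- the count
      have hprod : ((SN j).image f).card ≤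
          ((SN j).image (C_g lab (M'.erase y))).card * m ^ (s - 1 - (s' - 1) - c) := by
        obtain ⟨L, hL⟩ : ∃ L, L = M.erase x \ (C ∪ M'.erase y) := ⟨_, rfl⟩
        have h1 : M.erase x = M'.erase y ∪ (C ∪ L) := by
          rw [hL]
          ext l
          rw [mem_union, mem_union, mem_sdiff, mem_union]
          constructor
          · intro h1
            by_cases h2 : l ∈ C
            · exact Or.inr (Or.inl h2)
            · by_cases h3 : l ∈ M'.erase y
              · exact Or.inl h3
              · right; right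
                exact ⟨h1, by tauto⟩
          · rintro (h1 | h1 | h1)
            · exact hMe h1
            · exact hCsub h1
            · exact h1.1
        have h2 : L.card = s - 1 - (s' - 1) - c := by
          rw [hL, card_sdiff_of_subset (union_subset hCsub hMe), card_union_of_disjoint y4, ← hc,
            hce, hcE]
          omega
        have h3 : ((SN j).image (C_g lab C)).card ≤ 1 := by
          rw [card_le_one]
          intro B hB B' hB'
          rw [mem_image] at hB hB'
          obtain ⟨ω, hω, rfl⟩ := hB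
          obtain ⟨ω', hω', rfl⟩ := hB'
          have h4 : ∀ ω ∈ SN j, C_g lab C ω = C_g lab C ω₀ := by
            intro ω hω
            rw [C_g, C_g]
            refine image_congr fun l hl => ?_
            have hl : l ∈ C := hl
            rw [hC, C_cut, mem_filter, mem_erase] at hl
            obtain ⟨⟨h5, h6⟩, h7⟩ := hl
            have h9 := (hMc.2 l h6 h5).1
            have h8 := (hDeq ω hω).2 l h9 (mem_range.1 (hMn h6)) h7
            show (l, lab ω l) = (l, lab ω₀ l)
            rw [h8]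
          rw [h4 ω hω, h4 ω' hω']
        rw [hf, h1]
        refine (C_g_mul lab _ _ _).trans (Nat.mul_le_mul_left _ ?_)
        refine (C_g_mul lab _ _ _).trans ?_
        rw [← h2]
        calc _ ≤ 1 * m ^ L.card := Nat.mul_le_mul h3 (C_g_card lab L _)
          _ = _ := one_mul _
      -- the recursion
      have hrec : ((SN j).image (C_g lab (M'.erase y))).card * m ^ κ' ≤
          2 ^ (h + 1) * ((h + 2) * K) ^ κ' * m ^ (s' - 1) := by
        by_cases hyD : y ∈ D
        · have h1 := ihh s' a y M' (SN j) hs'.symm (by omega) (y1.trans hMn) y2 (by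
            intro ω hω
            refine ⟨(hmemN ω hω).1, j, ?_, ?_⟩
            · rw [← ht, (hDeq ω hω).1]
              intro l hl
              exact (hconst l hl).2 hyD
            · intro i
              obtain ⟨_, _, _, _, h3⟩ := (hmemN ω hω).2
              exact disjoint_of_subset_right y1 (h3 i))
          refine h1.trans ?_
          refine Nat.mul_le_mul_right _ (Nat.mul_le_mul ?_ ?_)
          · exact Nat.pow_le_pow_right (by norm_num) (by omega)
          · exact Nat.pow_le_pow_left (Nat.mul_le_mul_right _ (by omega)) _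
        · exact ihs s' hs's a y M' (SN j) hs'.symm ha (y1.trans hMn) y2 (by
            intro ω hω
            obtain ⟨_, _, i, h2, h3⟩ := (hmemN ω hω).2
            exact ⟨(hmemN ω hω).1, i, y1.trans h2,
              fun l => disjoint_of_subset_right y1 (h3 l)⟩)
      set X := ((SN j).image (C_g lab (M'.erase y))).card with hX
      set Q := (h + 2) * K with hQ
      have hQm : Q ≤ m := hm
      have hQ1 : 1 ≤ Q := Nat.mul_pos (by omega) hK
      have hmain : ((SN j).image f).card * m ^ (κ' + c) ≤ 2 ^ (h + 1) * Q ^ κ' * m ^ (s - 1) := by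
        calc ((SN j).image f).card * m ^ (κ' + c)
            ≤ (X * m ^ (s - 1 - (s' - 1) - c)) * m ^ (κ' + c) := Nat.mul_le_mul_right _ hprod
          _ = (X * m ^ κ') * m ^ (s - 1 - (s' - 1)) := by
              have : s - 1 - (s' - 1) = (s - 1 - (s' - 1) - c) + c := by omega
              rw [this, pow_add, pow_add]
              rw [show s - 1 - (s' - 1) - c + c - c = s - 1 - (s' - 1) - c by omega]
              ring
          _ ≤ (2 ^ (h + 1) * Q ^ κ' * m ^ (s' - 1)) * m ^ (s - 1 - (s' - 1)) :=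
              Nat.mul_le_mul_right _ hrec
          _ = 2 ^ (h + 1) * Q ^ κ' * m ^ (s - 1) := by
              rw [mul_assoc, ← pow_add]
              congr 2
              omega
      rcases Nat.lt_or_ge κ' κ with hlt | hge
      · calc ((SN j).image f).card * m ^ κ ≤ ((SN j).image f).card * m ^ (κ' + c) :=
              Nat.mul_le_mul_left _ (Nat.pow_le_pow_right hm1 hκκ)
          _ ≤ 2 ^ (h + 1) * Q ^ κ' * m ^ (s - 1) := hmain
          _ ≤ _ := Nat.mul_le_mul_right _ (Nat.mul_le_mul_left _
              (Nat.pow_le_pow_right hQ1 (by omega)))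
      · have hκe : κ' = κ := le_antisymm hκ'κ hge
        rw [hκe] at hmain
        refine Nat.le_of_mul_le_mul_right (c := m) ?_ (by omega)
        calc ((SN j).image f).card * m ^ κ * m = ((SN j).image f).card * m ^ (κ + 1) := by
              rw [pow_succ, mul_assoc]
          _ ≤ ((SN j).image f).card * m ^ (κ + c) :=
              Nat.mul_le_mul_left _ (Nat.pow_le_pow_right hm1 (by omega))
          _ ≤ 2 ^ (h + 1) * Q ^ κ * m ^ (s - 1) := hmain
          _ = 2 ^ (h + 1) * Q ^ (κ - 1) * m ^ (s - 1) * Q := by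
              have : κ = κ - 1 + 1 := by omega
              rw [this, pow_succ, Nat.add_sub_cancel]
              ring
          _ ≤ 2 ^ (h + 1) * Q ^ (κ - 1) * m ^ (s - 1) * m := Nat.mul_le_mul_left _ hQm
    -- total
    have hRL : ((SR.image f).card + (SL.image f).card) * m ^ κ ≤
        2 ^ (h + 1) * ((h + 1) * K) ^ κ * m ^ (s - 1) := by
      calc ((SR.image f).card + (SL.image f).card) * m ^ κ
          = (SR.image f).card * m ^ κ + (SL.image f).card * m ^ κ := add_mul _ _ _
        _ ≤ 2 ^ h * ((h + 1) * K) ^ κ * m ^ (s - 1) +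
            2 ^ h * ((h + 1) * K) ^ κ * m ^ (s - 1) := Nat.add_le_add hR hLe
        _ = _ := by rw [pow_succ]; ring
    have hsumN : (∑ j, ((SN j).image f).card) * m ^ κ ≤
        2 ^ (h + 1) * (K * ((h + 2) * K) ^ (κ - 1)) * m ^ (s - 1) := by
      rw [sum_mul]
      refine (sum_le_card_nsmul univ _ _ fun j _ => (hN j).2).trans (le_of_eq ?_)
      rw [card_univ, ← hKdef, smul_eq_mul]
      ring
    rcases Nat.eq_zero_or_pos κ with hk0 | hkpos
    · have h1 : (∑ j, ((SN j).image f).card) = 0 := by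
        refine sum_eq_zero fun j _ => ?_
        rcases (SN j).eq_empty_or_nonempty with h0 | h0
        · rw [h0]; simp
        · have := (hN j).1 h0
          omega
      rw [h1, add_zero] at hcard
      calc (S.image f).card * m ^ κ ≤ ((SR.image f).card + (SL.image f).card) * m ^ κ :=
            Nat.mul_le_mul_right _ hcard
        _ ≤ 2 ^ (h + 1) * ((h + 1) * K) ^ κ * m ^ (s - 1) := hRL
        _ = _ := by rw [hk0, pow_zero, pow_zero]
    · calc (S.image f).card * m ^ κ
          ≤ ((SR.image f).card + (SL.image f).card + ∑ j, ((SN j).image f).card) * m ^ κ :=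
            Nat.mul_le_mul_right _ hcard
        _ = ((SR.image f).card + (SL.image f).card) * m ^ κ +
            (∑ j, ((SN j).image f).card) * m ^ κ := add_mul _ _ _
        _ ≤ 2 ^ (h + 1) * ((h + 1) * K) ^ κ * m ^ (s - 1) +
            2 ^ (h + 1) * (K * ((h + 2) * K) ^ (κ - 1)) * m ^ (s - 1) :=
            Nat.add_le_add hRL hsumN
        _ = 2 ^ (h + 1) * (((h + 1) * K) ^ κ + K * ((h + 2) * K) ^ (κ - 1)) * m ^ (s - 1) := by
            ring
        _ ≤ 2 ^ (h + 1) * ((h + 2) * K) ^ κ * m ^ (s - 1) :=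
            Nat.mul_le_mul_right _ (Nat.mul_le_mul_left _ (C_pow h K κ hkpos))
        _ = _ := rfl

end Count

theorem tree_count {Ω ρ : Type} [Fintype ρ] [DecidableEq ρ] {m n N : ℕ} {par : ℕ → ℕ}
    (hpar : IsPar par) (Φ : Finset Ω)
    (lab : Ω → ℕ → Fin m) (J : Ω → ℕ → ρ → Finset ℕ) (hJ : ∀ ω ∈ Φ, Hist N (range n) (J ω))
    (hty : ∀ ω ∈ Φ, ∀ ω' ∈ Φ, ∀ t ≤ N, ∀ i, (J ω t i).Nonempty → (J ω' t i).Nonempty →
      J ω t i = J ω' t i ∧ ∀ v, 1 ≤ v → v < n →
        ((v ∈ J ω t i ∧ par v ∉ J ω t i) ∨ (v ∉ J ω t i ∧ par v ∈ J ω t i)) →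
        lab ω v = lab ω' v)
    (H : ℕ) (hH : 2 ^ H ≤ N) (hS : (H + 1) * Fintype.card ρ ≤ m) (hn : 1 ≤ n)
    (hend : ∀ ω ∈ Φ, ∃ i, range n ⊆ J ω (2 ^ H) i) :
    (Φ.image (fun ω (l : Ioo 0 n) => lab ω l)).card * m ^ Nat.clog 2 n ≤
      2 ^ H * ((H + 1) * Fintype.card ρ) ^ Nat.clog 2 n * m ^ (n - 1) := by
  classical
  rcases Φ.eq_empty_or_nonempty with h0 | ⟨ω₀, hω₀⟩
  · subst h0
    simp
  have hK : 1 ≤ Fintype.card ρ := by
    obtain ⟨i, _⟩ := hend ω₀ hω₀
    exact Fintype.card_pos_iff.2 ⟨i⟩
  have hconn : Conn par 0 (range n) := by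
    refine ⟨mem_range.2 (by omega), fun v hv hv0 => ⟨by omega, ?_⟩⟩
    rw [mem_range] at hv ⊢
    have := hpar v (by omega)
    omega
  have h1 := C_main hpar Φ lab J hJ hty hK H hS n 0 0 (range n) Φ (card_range n) (by omega)
    subset_rfl hconn (by
    intro ω hω
    refine ⟨hω, ?_⟩
    obtain ⟨i, hi⟩ := hend ω hω
    refine ⟨i, ?_, fun j => ?_⟩
    · rw [zero_add]
      exact hi
    · rw [(hJ ω hω).zero j]
      exact disjoint_empty_left _)
  have he : (range n).erase 0 = Ioo 0 n := by
    ext l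
    rw [mem_erase, mem_range, mem_Ioo]
    omega
  rw [he] at h1
  refine le_trans (Nat.mul_le_mul_right _ ?_) h1
  have h2 : ((Φ.image (fun ω (l : Ioo 0 n) => lab ω l)).image
      (fun φ => univ.image (fun l : Ioo 0 n => ((l : ℕ), φ l)))) = Φ.image (C_g lab (Ioo 0 n)) := by
    rw [image_image]
    refine image_congr fun ω _ => ?_
    ext ⟨l, v⟩
    simp only [C_g, Function.comp_apply, mem_image, mem_univ, true_and, Prod.mk.injEq]
    constructor
    · rintro ⟨⟨l', hl'⟩, h1, h2⟩
      exact ⟨l', hl', h1, h2⟩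
    · rintro ⟨l', hl', h1, h2⟩
      exact ⟨⟨l', hl'⟩, h1, h2⟩
  rw [← h2]
  refine (card_image_of_injective _ ?_).symm.le
  intro φ ψ hφψ
  funext l
  have h3 : ((l : ℕ), φ l) ∈ univ.image (fun l : Ioo 0 n => ((l : ℕ), ψ l)) := by
    have h4 : (fun φ : Ioo 0 n → Fin m => univ.image (fun l : Ioo 0 n => ((l : ℕ), φ l))) φ =
      (fun φ : Ioo 0 n → Fin m => univ.image (fun l : Ioo 0 n => ((l : ℕ), φ l))) ψ := hφψ
    simp only at h4
    rw [← h4]
    exact mem_image_of_mem _ (mem_univ l)
  rw [mem_image] at h3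
  obtain ⟨l', _, h5⟩ := h3
  rw [Prod.mk.injEq] at h5
  have h6 : l' = l := Subtype.ext h5.1
  rw [← h5.2, h6]

end Pool.Agent.H564R3.TE
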