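import Pool.Agent.H564R3.TS.Defs

/-!
Tree evaluation by pure programs: definitions.
-/

set_option autoImplicit false

namespace Pool.Agent.H564R3.TE

open Finset

/-- the parent of node `v` of a rooted tree with nodes `0, ..., n - 1` and root `0`, given by the
function `par` (`par v < v` for `v > 0`) -/
def IsPar (par : ℕ → ℕ) : Prop := ∀ v, 1 ≤ v → par v < v

/-- the input variables: a node, and labels of some nodes -/
abbrev TVar (n m : ℕ) : Type := Fin n × (Fin n → Option (Fin m))

/-- the variable of node `v` for the labelling `φ`: it is determined by `v`, the label of `v` and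
the labels of the children of `v` -/
def tv {n m : ℕ} (par : ℕ → ℕ) (φ : Fin n → Fin m) (v : Fin n) : TVar n m :=
  (v, fun j => if j = v ∨ (1 ≤ j.val ∧ par j.val = v.val) then some (φ j) else none)

/-- The tree polynomial: sum over all labellings of the nodes of the product over all nodes of the
weight of the node, its label and the labels of its children. -/
def treeSum {R : Type} [CommSemiring R] {n m : ℕ} (par : ℕ → ℕ) (w : TVar n m → R) : R :=
  ∑ φ : Fin n → Fin m, ∏ v : Fin n, w (tv par φ v)

/-- the variables of a labelling -/
def tset {n m : ℕ} (par : ℕ → ℕ) (φ : Fin n → Fin m) : Finset (TVar n m) :=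
  univ.image (tv par φ)

/-- the node of a variable -/
def tpos {n m : ℕ} (x : TVar n m) : Finset (Fin n) := {x.1}

end Pool.Agent.H564R3.TE
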