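import Pool.Agent.H564R3.TE.Trees
import Pool.Agent.H564R3.TE.Count
import Pool.Agent.H564R3.SV.Main

/-! The lower bound for straight-line programs which produce the labelled trees. -/

set_option autoImplicit false

namespace Pool.Agent.H564R3.TE

open Finset
open Pool.Agent.H564R3.PW (Instr runs exec syms)
open Pool.Agent.H564R3.TS
open Pool.Agent.H564R3.SV (hist_exch pow_clog_le)

/-- nodes of a set of variables as natural numbers -/
def nodes {n m : ℕ} (Z : Finset (TVar n m)) : Finset ℕ := Z.image (fun x => x.1.val)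

theorem mem_nodes {n m : ℕ} (Z : Finset (TVar n m)) (i : Fin n) :
    i.val ∈ nodes Z ↔ i ∈ Z.biUnion tpos := by
  rw [nodes, mem_image, mem_biUnion]
  constructor
  · rintro ⟨x, hx, hxi⟩
    exact ⟨x, hx, mem_singleton.2 (Fin.ext hxi.symm)⟩
  · rintro ⟨x, hx, hxi⟩
    exact ⟨x, hx, by rw [mem_singleton.1 hxi]⟩

theorem nodes_tset {n m : ℕ} {par : ℕ → ℕ} (φ : Fin n → Fin m) :
    nodes (tset par φ) = range n := by
  ext l
  rw [mem_range]
  constructor
  · intro h
    rw [nodes, mem_image] at h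
    obtain ⟨x, _, rfl⟩ := h
    exact x.1.isLt
  · intro h
    rw [nodes, mem_image]
    exact ⟨tv par φ ⟨l, h⟩, mem_image_of_mem _ (mem_univ _), rfl⟩

theorem nodes_disj {n m : ℕ} {par : ℕ → ℕ} (φ : Fin n → Fin m) {Y Z : Finset (TVar n m)}
    (hY : Y ⊆ tset par φ) (hZ : Z ⊆ tset par φ) (h : Disjoint Y Z) :
    Disjoint (nodes Y) (nodes Z) := by
  rw [disjoint_left]
  intro l hl hl'
  rw [nodes, mem_image] at hl hl'
  obtain ⟨x, hx, rfl⟩ := hl
  obtain ⟨y, hy, hxy⟩ := hl'
  have h1 := hY hx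
  have h2 := hZ hy
  rw [tset, mem_image] at h1 h2
  obtain ⟨i, _, rfl⟩ := h1
  obtain ⟨j, _, rfl⟩ := h2
  have h3 : j = i := Fin.ext hxy
  subst h3
  exact disjoint_left.1 h hx hy

theorem nodes_sub {n m : ℕ} (Z : Finset (TVar n m)) : nodes Z ⊆ range n := by
  intro l hl
  rw [nodes, mem_image] at hl
  obtain ⟨x, _, rfl⟩ := hl
  exact mem_range.2 x.1.isLt

theorem nodes_hist {n m N : ℕ} {ρ : Type} {par : ℕ → ℕ} (φ : Fin n → Fin m)
    (z : ℕ → ρ → Finset (TVar n m)) (h : Hist N (tset par φ) z) :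
    Hist N (range n) (fun t i => nodes (z t i)) := by
  refine ⟨?_, ?_, ?_, ?_, ?_⟩
  · intro i
    show nodes (z 0 i) = ∅
    rw [h.zero i, nodes, image_empty]
  · intro t _ i
    exact nodes_sub _
  · intro t ht i j hij
    exact nodes_disj φ (h.sub t ht i) (h.sub t ht j) (h.disj t ht i j hij)
  · intro t ht i
    obtain ⟨j, hj⟩ := h.up t ht i
    exact ⟨j, image_subset_image hj⟩
  · intro t ht i
    rcases h.down t ht i with ⟨j, hj⟩ | ⟨j, l, hj⟩ | hj
    · left
      exact ⟨j, by rw [hj]⟩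
    · right; left
      refine ⟨j, l, ?_⟩
      show nodes (z (t + 1) i) = _
      rw [hj, nodes, image_union]
      rfl
    · right; right
      exact card_image_le.trans hj

theorem tree_lower {R ρ : Type} [Zero R] [Fintype ρ] [DecidableEq ρ] {n m : ℕ} {par : ℕ → ℕ}
    (hpar : IsPar par) (hn : 1 ≤ n) (hm : 1 ≤ m) (p : List (Instr R (TVar n m) ρ)) (o : ρ)
    (g1 : ∀ A ∈ univ.image (tset (n := n) (m := m) par), ind A ∈ syms p o)
    (g2 : ∀ u ∈ syms p o, ∃ A ∈ univ.image (tset (n := n) (m := m) par), ∀ x ∈ A, u x ≠ 0)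
    (hp : 1 ≤ p.length) :
    m ^ Nat.clog 2 n ≤
      2 * p.length * ((Nat.clog 2 p.length + 1) * Fintype.card ρ) ^ Nat.clog 2 n := by
  classical
  set H := Nat.clog 2 p.length with hH
  set κ := Nat.clog 2 n with hκ
  have hHT : 2 ^ H ≤ 2 * p.length := pow_clog_le _ hp
  rcases Nat.lt_or_ge m ((H + 1) * Fintype.card ρ) with hlt | hge
  · calc m ^ κ ≤ ((H + 1) * Fintype.card ρ) ^ κ := Nat.pow_le_pow_left hlt.le _
      _ = 1 * ((H + 1) * Fintype.card ρ) ^ κ := (one_mul _).symm
      _ ≤ _ := Nat.mul_le_mul_right _ (by omega)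
  · set F := univ.image (tset (n := n) (m := m) par) with hF
    have hFe : ∀ A ∈ F, Exact tpos 1 univ A := by
      intro A hA
      rw [hF, mem_image] at hA
      obtain ⟨φ, _, rfl⟩ := hA
      exact tree_exact φ
    have hT : Cov tpos (syms p o) := by
      intro u hu e
      obtain ⟨A, hA, hAu⟩ := g2 u hu
      obtain ⟨x, hx, hex⟩ := (hFe A hA).cover e (mem_univ e)
      exact ⟨x, hAu x hx, hex⟩
    obtain ⟨z, hz, hex⟩ := hist_exch le_rfl p o hT F hFe g1 (2 ^ H)
      (Nat.le_pow_clog (by norm_num) _)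
    have c0 : Fin m := ⟨0, hm⟩
    set Φ : Finset (Fin n → Fin m) := univ with hΦ
    have hmemF : ∀ φ : Fin n → Fin m, tset par φ ∈ F := fun φ =>
      mem_image_of_mem _ (mem_univ φ)
    set lab : (Fin n → Fin m) → ℕ → Fin m :=
      fun φ l => if h : l < n then φ ⟨l, h⟩ else c0 with hlab
    have hTp : ∀ u ∈ syms p o, ∃ χ : Fin n → Fin m, ∀ i, u (tv par χ i) ≠ 0 := by
      intro u hu
      obtain ⟨A, hA, hAu⟩ := g2 u hu
      rw [hF, mem_image] at hA
      obtain ⟨χ, _, rfl⟩ := hA
      exact ⟨χ, fun i => hAu _ (mem_image_of_mem _ (mem_univ i))⟩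
    have hc := tree_count hpar Φ lab (fun φ t i => nodes (z (tset par φ) t i))
      (fun φ _ => nodes_hist φ _ (hz _ (hmemF φ)).1) (by
        intro φ _ ψ _ t ht i h1 h2
        have h1' : (z (tset par φ) t i).Nonempty := image_nonempty.1 h1
        have h2' : (z (tset par ψ) t i).Nonempty := image_nonempty.1 h2
        obtain ⟨h3, h4⟩ := hex _ (hmemF φ) _ (hmemF ψ) t ht i h1' h2'
        refine ⟨?_, ?_⟩
        · ext l
          constructor
          · intro hl
            have hln : l < n := mem_range.1 (nodes_sub _ hl)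
            have := (mem_nodes _ (⟨l, hln⟩ : Fin n)).1 hl
            rw [h3] at this
            exact (mem_nodes _ (⟨l, hln⟩ : Fin n)).2 this
          · intro hl
            have hln : l < n := mem_range.1 (nodes_sub _ hl)
            have := (mem_nodes _ (⟨l, hln⟩ : Fin n)).1 hl
            rw [← h3] at this
            exact (mem_nodes _ (⟨l, hln⟩ : Fin n)).2 this
        · intro v hv hvn hb
          have hpn : par v < n := lt_trans (hpar v hv) hvn
          have e1 := mem_nodes (z (tset par φ) t i) (⟨v, hvn⟩ : Fin n)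
          have e2 := mem_nodes (z (tset par φ) t i) (⟨par v, hpn⟩ : Fin n)
          simp only at e1 e2
          have h5 := tree_type hTp φ ψ _ _ ((hz _ (hmemF φ)).1.sub t ht i)
            ((hz _ (hmemF ψ)).1.sub t ht i) h3 h4 ⟨v, hvn⟩ ⟨par v, hpn⟩ hv rfl (by
              rw [← e1, ← e2]
              exact hb)
          rw [hlab]
          simp only
          rw [dif_pos hvn, dif_pos hvn]
          exact h5) H le_rfl hge hn (by
        intro φ _
        refine ⟨o, ?_⟩
        show range n ⊆ nodes (z (tset par φ) (2 ^ H) o)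
        rw [(hz _ (hmemF φ)).2, nodes_tset])
    have himg : Φ.image (fun ω (l : Ioo 0 n) => lab ω l) = univ := by
      rw [eq_univ_iff_forall]
      intro g
      rw [mem_image]
      refine ⟨fun l => if h : (l : ℕ) ∈ Ioo 0 n then g ⟨l, h⟩ else c0, mem_univ _, ?_⟩
      funext l
      have hl := l.2
      have hl2 : (l : ℕ) < n := (mem_Ioo.1 hl).2
      rw [hlab]
      simp only
      rw [dif_pos hl2, dif_pos hl]
    rw [himg, card_univ, Fintype.card_fun, Fintype.card_fin, Fintype.card_coe, Nat.card_Ioo,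
      Nat.sub_zero] at hc
    have hpos : 0 < m ^ (n - 1) := Nat.pow_pos hm
    have h6 : m ^ κ ≤ 2 ^ H * ((H + 1) * Fintype.card ρ) ^ κ := by
      refine Nat.le_of_mul_le_mul_right (c := m ^ (n - 1)) ?_ hpos
      rw [mul_comm (m ^ κ)]
      exact hc
    exact h6.trans (Nat.mul_le_mul_right _ hHT)

end Pool.Agent.H564R3.TE
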