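import Pool.Agent.H564R3.TE.Defs

/-! Stubs (statements only). -/

set_option autoImplicit false

namespace Pool.Agent.H564R3.TE

open Finset
open Pool.Agent.H564R3.PW (Instr runs exec syms)

/-! ### U (Upper.lean) -/

theorem tree_upper {R : Type} [CommSemiring R] (k m : ℕ) :
    ∃ (ρ : Type) (_ : Fintype ρ) (_ : DecidableEq ρ)
      (p : List (Instr R (TVar (2 * k + 1) m) ρ)) (o : ρ),
      Fintype.card ρ = (2 * k + 1) * m + 3 ∧ p.length ≤ 10 * (2 * k + 1) * (m + 1) ^ 3 ∧
      ∀ w : TVar (2 * k + 1) m → R, exec w p o = treeSum (fun v => (v - 1) / 2) w := by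
  sorry

end Pool.Agent.H564R3.TE
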