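import Pool.Agent.H564R3.TE.Defs

/-! Trees: basic facts about the sets of variables of labelled trees. -/

set_option autoImplicit false

namespace Pool.Agent.H564R3.TE

open Finset
open Pool.Agent.H564R3.TS

variable {n m : ℕ} {par : ℕ → ℕ}

theorem P_tv_inj (φ : Fin n → Fin m) : Function.Injective (tv par φ) := by
  intro i j h
  exact congrArg Prod.fst h

theorem P_mem_tset (φ : Fin n → Fin m) (x : TVar n m) :
    x ∈ tset par φ ↔ x = tv par φ x.1 := by
  constructor
  · intro h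
    obtain ⟨i, -, rfl⟩ := mem_image.mp h
    rfl
  · intro h
    rw [h]
    exact mem_image_of_mem _ (mem_univ _)

theorem P_mem_biUnion (Y : Finset (TVar n m)) (i : Fin n) :
    i ∈ Y.biUnion tpos ↔ ∃ y ∈ Y, y.1 = i := by
  simp only [mem_biUnion, tpos, mem_singleton]
  constructor
  · rintro ⟨y, hy, rfl⟩; exact ⟨y, hy, rfl⟩
  · rintro ⟨y, hy, rfl⟩; exact ⟨y, hy, rfl⟩

theorem tree_exact (φ : Fin n → Fin m) : Exact tpos 1 univ (tset par φ) := by
  refine ⟨fun x _ => by simp [tpos], fun x _ => subset_univ _, ?_, ?_⟩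
  · intro x hx y hy hne
    rw [P_mem_tset] at hx hy
    simp only [tpos, disjoint_singleton]
    intro h
    apply hne
    rw [hx, hy, h]
  · intro e _
    exact ⟨tv par φ e, mem_image_of_mem _ (mem_univ _), by simp [tpos, tv]⟩

theorem tree_card (φ : Fin n → Fin m) : (tset par φ).card = n := by
  unfold tset
  rw [card_image_of_injective _ (P_tv_inj φ), card_univ, Fintype.card_fin]

theorem tv_own {φ ψ : Fin n → Fin m} {v : Fin n} (h : tv par φ v = tv par ψ v) : φ v = ψ v := by
  have h1 := congrFun (congrArg Prod.snd h) v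
  simp only [tv, true_or, if_true] at h1
  exact Option.some_injective _ h1

theorem tv_child {φ ψ : Fin n → Fin m} {v c : Fin n} (hc : 1 ≤ c.val) (hp : par c.val = v.val)
    (h : tv par φ v = tv par ψ v) : φ c = ψ c := by
  have h1 := congrFun (congrArg Prod.snd h) c
  simp only [tv] at h1
  rw [if_pos (Or.inr ⟨hc, hp⟩), if_pos (Or.inr ⟨hc, hp⟩)] at h1
  exact Option.some_injective _ h1

theorem tree_inj : Function.Injective (tset (n := n) (m := m) par) := by
  intro φ ψ h
  funext x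
  have h1 : tv par φ x ∈ tset par ψ := by
    rw [← h]; exact mem_image_of_mem _ (mem_univ _)
  exact tv_own ((P_mem_tset ψ _).mp h1)

theorem tree_sum {R : Type} [CommSemiring R] (w : TVar n m → R) :
    treeSum par w = ∑ A ∈ univ.image (tset (n := n) (m := m) par), ∏ x ∈ A, w x := by
  rw [sum_image (fun a _ b _ h => tree_inj h)]
  unfold treeSum tset
  refine sum_congr rfl fun φ _ => ?_
  rw [prod_image (fun a _ b _ h => P_tv_inj φ h)]

theorem tree_type {T : Set (TVar n m → ℕ)}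
    (hT : ∀ u ∈ T, ∃ χ : Fin n → Fin m, ∀ i, u (tv par χ i) ≠ 0)
    (φ ψ : Fin n → Fin m) (Y Z : Finset (TVar n m)) (hY : Y ⊆ tset par φ)
    (hZ : Z ⊆ tset par ψ) (hpos : Y.biUnion tpos = Z.biUnion tpos)
    (h : ind (tset par φ \ Y) + ind Z ∈ T) (v p : Fin n) (hv : 1 ≤ v.val)
    (hp : par v.val = p.val)
    (hb : (v ∈ Y.biUnion tpos ∧ p ∉ Y.biUnion tpos) ∨
      (v ∉ Y.biUnion tpos ∧ p ∈ Y.biUnion tpos)) :
    φ v = ψ v := by
  obtain ⟨χ, hχ⟩ := hT _ h
  have hor : ∀ i, tv par χ i ∈ tset par φ \ Y ∨ tv par χ i ∈ Z := by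
    intro i
    by_contra hcon
    rw [not_or] at hcon
    apply hχ i
    simp only [Pi.add_apply, ind, if_neg hcon.1, if_neg hcon.2]
  have hout : ∀ i, i ∉ Y.biUnion tpos → tv par χ i = tv par φ i := by
    intro i hi
    rcases hor i with h1 | h1
    · exact (P_mem_tset φ _).mp (mem_sdiff.mp h1).1
    · exact absurd ((P_mem_biUnion Z i).mpr ⟨_, h1, rfl⟩) (hpos ▸ hi)
  have hin : ∀ i, i ∈ Y.biUnion tpos → tv par χ i = tv par ψ i := by
    intro i hi
    rcases hor i with h1 | h1
    · obtain ⟨y, hy, rfl⟩ := (P_mem_biUnion Y i).mp hi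
      have h2 : tv par χ y.1 = tv par φ y.1 := (P_mem_tset φ _).mp (mem_sdiff.mp h1).1
      have h3 : y = tv par φ y.1 := (P_mem_tset φ _).mp (hY hy)
      exfalso
      apply (mem_sdiff.mp h1).2
      rw [h2, ← h3]
      exact hy
    · exact (P_mem_tset ψ _).mp (hZ h1)
  rcases hb with ⟨ha, hc⟩ | ⟨ha, hc⟩
  · have h1 : χ v = ψ v := tv_own (hin _ ha)
    have h2 : χ v = φ v := tv_child hv hp (hout _ hc)
    exact h2.symm.trans h1
  · have h1 : χ v = φ v := tv_own (hout _ ha)
    have h2 : χ v = ψ v := tv_child hv hp (hin _ hc)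
    exact h1.symm.trans h2

end Pool.Agent.H564R3.TE
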