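import Pool.Agent.H564R3.TE.Defs
import Pool.Agent.H564R3.PW.Prog

/-! The upper bound: a program for the tree polynomial of a full binary tree. -/

set_option autoImplicit false

namespace Pool.Agent.H564R3.TE

open Finset
open Pool.Agent.H564R3.PW (Instr runs exec syms L1_runs_append L1_runs_cons L1_runs_nil L1_loop
  L1_assign L1_len_flatMap)

section UA

variable {R : Type} [CommSemiring R] {m : ℕ}

/-- extension of a labelling to all natural numbers -/
def U_ext (d : Fin m) {n : ℕ} (φ : Fin n → Fin m) (j : ℕ) : Fin m :=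
  if h : j < n then φ ⟨j, h⟩ else d

/-- sum over labellings -/
def U_S (d : Fin m) (n : ℕ) (F : (ℕ → Fin m) → R) : R := ∑ φ : Fin n → Fin m, F (U_ext d φ)

theorem U_S_succ (d : Fin m) (n : ℕ) (F : (ℕ → Fin m) → R) :
    U_S d (n + 1) F = U_S d n (fun ψ => ∑ a, F (Function.update ψ n a)) := by
  unfold U_S
  rw [← (Fin.snocEquiv (fun _ => Fin m)).sum_comp, Fintype.sum_prod_type, Finset.sum_comm]
  refine Finset.sum_congr rfl fun φ _ => Finset.sum_congr rfl fun a _ => ?_
  congr 1
  funext j
  show U_ext d (Fin.snoc (α := fun _ => Fin m) φ a) j = _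
  unfold U_ext
  by_cases h1 : j = n
  · subst h1
    rw [Function.update_self, dif_pos (Nat.lt_succ_self j)]
    exact Fin.snoc_last (α := fun _ => Fin m) a φ
  · rw [Function.update_of_ne h1]
    by_cases h2 : j < n
    · rw [dif_pos h2, dif_pos (by omega)]
      exact Fin.snoc_castSucc (α := fun _ => Fin m) a φ ⟨j, h2⟩
    · rw [dif_neg h2, dif_neg (by omega)]

theorem U_S_zero (d : Fin m) (F : (ℕ → Fin m) → R) : U_S d 0 F = F (fun _ => d) := by
  unfold U_S
  rw [Fintype.sum_unique]
  congr 1

/-- the value of a labelling: weights `W` of the inner nodes and `g` of the leaves -/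
def U_F (W : ℕ → Fin m → Fin m → Fin m → R) (g : ℕ → Fin m → R) (k : ℕ) (ψ : ℕ → Fin m) : R :=
  (∏ v ∈ range k, W v (ψ v) (ψ (2 * v + 1)) (ψ (2 * v + 2))) *
    ∏ v ∈ Ico k (2 * k + 1), g v (ψ v)

theorem U_step (d : Fin m) (W : ℕ → Fin m → Fin m → Fin m → R) (g : ℕ → Fin m → R) (k : ℕ)
    (hg : ∀ c, g k c = ∑ a, ∑ b, W k c a b * g (2 * k + 1) a * g (2 * k + 2) b) :
    U_S d (2 * (k + 1) + 1) (U_F W g (k + 1)) = U_S d (2 * k + 1) (U_F W g k) := by
  rw [show 2 * (k + 1) + 1 = 2 * k + 1 + 1 + 1 by ring, U_S_succ, U_S_succ]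
  congr 1
  funext ψ
  have h1 : ∀ a b, U_F W g (k + 1)
      (Function.update (Function.update ψ (2 * k + 1) a) (2 * k + 1 + 1) b) =
      (∏ v ∈ range k, W v (ψ v) (ψ (2 * v + 1)) (ψ (2 * v + 2))) *
        (∏ v ∈ Ico (k + 1) (2 * k + 1), g v (ψ v)) *
        (W k (ψ k) a b * g (2 * k + 1) a * g (2 * k + 2) b) := by
    intro a b
    set ψ' := Function.update (Function.update ψ (2 * k + 1) a) (2 * k + 1 + 1) b with hψ'
    have e1 : ∀ j, j < 2 * k + 1 → ψ' j = ψ j := by
      intro j hj
      rw [hψ', Function.update_of_ne (by omega), Function.update_of_ne (by omega)]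
    have e2 : ψ' (2 * k + 1) = a := by
      rw [hψ', Function.update_of_ne (by omega), Function.update_self]
    have e3 : ψ' (2 * k + 2) = b := by
      rw [hψ']
      exact Function.update_self _ _ _
    unfold U_F
    rw [Finset.prod_range_succ, show 2 * (k + 1) + 1 = 2 * k + 1 + 1 + 1 by ring,
      Finset.prod_Ico_succ_top (by omega), Finset.prod_Ico_succ_top (by omega)]
    have e4 : ∏ v ∈ range k, W v (ψ' v) (ψ' (2 * v + 1)) (ψ' (2 * v + 2)) =
        ∏ v ∈ range k, W v (ψ v) (ψ (2 * v + 1)) (ψ (2 * v + 2)) := by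
      refine Finset.prod_congr rfl fun v hv => ?_
      have := Finset.mem_range.1 hv
      rw [e1 v (by omega), e1 (2 * v + 1) (by omega), e1 (2 * v + 2) (by omega)]
    have e5 : ∏ v ∈ Ico (k + 1) (2 * k + 1), g v (ψ' v) =
        ∏ v ∈ Ico (k + 1) (2 * k + 1), g v (ψ v) := by
      refine Finset.prod_congr rfl fun v hv => ?_
      have := Finset.mem_Ico.1 hv
      rw [e1 v (by omega)]
    rw [e4, e5, e1 k (by omega), e2, e3]
    ring
  simp only [h1]
  simp only [← Finset.mul_sum]
  rw [← hg]
  unfold U_F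
  rw [Finset.prod_eq_prod_Ico_succ_bot (by omega : k < 2 * k + 1)]
  ring

/-- the value of the subtree of the node `v` with label `c` -/
noncomputable def U_f (W : ℕ → Fin m → Fin m → Fin m → R) (g : ℕ → Fin m → R) (k v : ℕ)
    (c : Fin m) : R :=
  if h : k ≤ v then g v c
  else ∑ a, ∑ b, W v c a b * U_f W g k (2 * v + 1) a * U_f W g k (2 * v + 2) b
termination_by k - v

theorem U_f_leaf (W : ℕ → Fin m → Fin m → Fin m → R) (g : ℕ → Fin m → R) {k v : ℕ} (h : k ≤ v)
    (c : Fin m) : U_f W g k v c = g v c := by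
  rw [U_f, dif_pos h]

theorem U_f_inner (W : ℕ → Fin m → Fin m → Fin m → R) (g : ℕ → Fin m → R) {k v : ℕ}
    (h : ¬ k ≤ v) (c : Fin m) : U_f W g k v c =
      ∑ a, ∑ b, W v c a b * U_f W g k (2 * v + 1) a * U_f W g k (2 * v + 2) b := by
  rw [U_f, dif_neg h]

theorem U_val (d : Fin m) (W : ℕ → Fin m → Fin m → Fin m → R) (g : ℕ → Fin m → R) (k : ℕ) :
    U_S d (2 * k + 1) (U_F W g k) = ∑ c, U_f W g k 0 c := by
  have h1 : ∀ j ≤ k, U_S d (2 * j + 1) (U_F W (U_f W g k) j) = ∑ c, U_f W g k 0 c := by
    intro j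
    induction j with
    | zero =>
      intro _
      rw [show 2 * 0 + 1 = 0 + 1 from rfl, U_S_succ, U_S_zero]
      refine Finset.sum_congr rfl fun c _ => ?_
      simp [U_F]
    | succ j ih =>
      intro hj
      rw [U_step d W (U_f W g k) j (fun c => U_f_inner W g (by omega) c)]
      exact ih (by omega)
  rw [← h1 k le_rfl]
  congr 1
  funext ψ
  unfold U_F
  congr 1
  refine Finset.prod_congr rfl fun v hv => ?_
  rw [U_f_leaf W g (Finset.mem_Ico.1 hv).1]

end UA

section UB

/-- the registers -/
abbrev U_reg (k m : ℕ) : Type := (Fin (2 * k + 1) × Fin m) ⊕ Fin 3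

/-- node number `v` -/
def U_nd (k v : ℕ) : Fin (2 * k + 1) := Fin.ofNat (2 * k + 1) v

theorem U_nd_val {k v : ℕ} (h : v < 2 * k + 1) : (U_nd k v).val = v := by
  simp [U_nd, Nat.mod_eq_of_lt h]

variable {R : Type} [CommSemiring R] {m : ℕ}

/-- the variables of the leaves -/
def U_xl (k v : ℕ) (c : Fin m) : TVar (2 * k + 1) m :=
  (U_nd k v, fun j => if j.val = v then some c else none)

/-- the variables of the inner nodes -/
def U_xi (k v : ℕ) (c a b : Fin m) : TVar (2 * k + 1) m :=
  (U_nd k v, fun j => if j.val = v then some c else if j.val = 2 * v + 1 then some a else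
    if j.val = 2 * v + 2 then some b else none)

/-- the register of the node `v` and the label `c` -/
def U_cell (k v : ℕ) (c : Fin m) : U_reg k m := Sum.inl (U_nd k v, c)

theorem U_cell_ne {k u v : ℕ} (hu : u < 2 * k + 1) (hv : v < 2 * k + 1) (h : u ≠ v)
    (c c' : Fin m) : (U_cell k u c : U_reg k m) ≠ U_cell k v c' := by
  intro h1
  have h2 := Sum.inl.inj h1
  have h3 := congrArg (fun p => (Prod.fst p).val) h2
  simp only [U_nd_val hu, U_nd_val hv] at h3
  exact h h3

theorem U_cell_inj {k v : ℕ} {c c' : Fin m} (h : c ≠ c') :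
    (U_cell k v c : U_reg k m) ≠ U_cell k v c' := by
  intro h1
  have h2 := Sum.inl.inj h1
  exact h (congrArg Prod.snd h2)

variable (R) in
/-- the program of a leaf -/
noncomputable def U_leaf (m k v : ℕ) : List (Instr R (TVar (2 * k + 1) m) (U_reg k m)) :=
  (univ : Finset (Fin m)).toList.flatMap fun c => [Instr.load (U_cell k v c) (U_xl k v c)]

variable (R) in
/-- the program for a triple of labels -/
noncomputable def U_trip (k v : ℕ) (t : Fin m × Fin m × Fin m) :
    List (Instr R (TVar (2 * k + 1) m) (U_reg k m)) :=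
  [Instr.load (Sum.inr 0) (U_xi k v t.1 t.2.1 t.2.2),
   Instr.mul (Sum.inr 0) (Sum.inr 0) (U_cell k (2 * v + 1) t.2.1),
   Instr.mul (Sum.inr 0) (Sum.inr 0) (U_cell k (2 * v + 2) t.2.2),
   Instr.add (U_cell k v t.1) (U_cell k v t.1) (Sum.inr 0)]

variable (R) in
/-- the program of an inner node -/
noncomputable def U_inner (m k v : ℕ) : List (Instr R (TVar (2 * k + 1) m) (U_reg k m)) :=
  (univ : Finset (Fin m × Fin m × Fin m)).toList.flatMap (U_trip R k v)

variable (R) in
/-- the program of a node -/
noncomputable def U_block (m k v : ℕ) : List (Instr R (TVar (2 * k + 1) m) (U_reg k m)) :=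
  if k ≤ v then U_leaf R m k v else U_inner R m k v

theorem U_block_length (k v : ℕ) : (U_block R m k v).length ≤ 4 * (m + 1) ^ 3 := by
  unfold U_block
  split_ifs
  · have h := L1_len_flatMap (R := R) (X := TVar (2 * k + 1) m) (ρ := U_reg k m)
      (fun c : Fin m => [Instr.load (U_cell k v c) (U_xl k v c)])
      (univ : Finset (Fin m)).toList 1 (fun _ => by simp)
    rw [Finset.length_toList, Finset.card_univ, Fintype.card_fin, mul_one] at h
    refine h.trans ?_
    nlinarith [Nat.one_le_pow 3 (m + 1) (by omega), sq_nonneg m, pow_pos (Nat.succ_pos m) 2,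
      pow_pos (Nat.succ_pos m) 3]
  · have h := L1_len_flatMap (U_trip R (m := m) k v)
      (univ : Finset (Fin m × Fin m × Fin m)).toList 4 (fun _ => by simp [U_trip])
    rw [Finset.length_toList, Finset.card_univ, Fintype.card_prod, Fintype.card_prod,
      Fintype.card_fin] at h
    refine h.trans ?_
    have : m * (m * m) ≤ (m + 1) ^ 3 := by
      have := Nat.pow_le_pow_left (Nat.le_succ m) 3
      calc m * (m * m) = m ^ 3 := by ring
        _ ≤ _ := this
    omega

theorem U_block_run (k v : ℕ) (hv : v < 2 * k + 1) (w : TVar (2 * k + 1) m → R)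
    (s : U_reg k m → R) (h0 : ∀ c, s (U_cell k v c) = 0)
    (h1 : ∀ u, v < u → u < 2 * k + 1 → ∀ c, s (U_cell k u c) =
      U_f (fun v c a b => w (U_xi k v c a b)) (fun v c => w (U_xl k v c)) k u c) :
    (∀ c, runs w (U_block R m k v) s (U_cell k v c) =
      U_f (fun v c a b => w (U_xi k v c a b)) (fun v c => w (U_xl k v c)) k v c) ∧
    ∀ r, r ≠ Sum.inr 0 → (∀ c, r ≠ U_cell k v c) → runs w (U_block R m k v) s r = s r := by
  unfold U_block
  by_cases hkv : k ≤ v
  · rw [if_pos hkv]
    have hl := L1_assign (R := R) (X := TVar (2 * k + 1) m) (ρ := U_reg k m) w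
      (fun c : Fin m => [Instr.load (U_cell k v c) (U_xl k v c)]) (fun c => U_cell k v c)
      (fun r => ∀ c, r ≠ U_cell k v c) (fun c => w (U_xl k v c))
      (by
        intro x v
        rw [L1_runs_cons, L1_runs_nil]
        simp only [Instr.run, Function.update_self])
      (by
        intro x v r hr
        rw [L1_runs_cons, L1_runs_nil]
        simp only [Instr.run]
        rw [Function.update_of_ne (hr x)])
      (by
        intro x x' v hx
        rw [L1_runs_cons, L1_runs_nil]
        simp only [Instr.run]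
        rw [Function.update_of_ne (U_cell_inj hx.symm)])
      (univ : Finset (Fin m)).toList s
    refine ⟨fun c => ?_, fun r _ hr => hl.2 r hr⟩
    rw [U_f_leaf _ _ hkv]
    unfold U_leaf
    rw [hl.1 c, if_pos (by simp)]
  · rw [if_neg hkv]
    have hrun : ∀ (t : Fin m × Fin m × Fin m) (s : U_reg k m → R),
        runs w (U_trip R k v t) s (U_cell k v t.1) = s (U_cell k v t.1) +
          w (U_xi k v t.1 t.2.1 t.2.2) * s (U_cell k (2 * v + 1) t.2.1) *
            s (U_cell k (2 * v + 2) t.2.2) ∧
        ∀ r, r ≠ U_cell k v t.1 → r ≠ Sum.inr 0 → runs w (U_trip R k v t) s r = s r := by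
      intro t s
      have c1 : (U_cell k v t.1 : U_reg k m) ≠ Sum.inr 0 := by simp [U_cell]
      have c2 : (U_cell k (2 * v + 1) t.2.1 : U_reg k m) ≠ Sum.inr 0 := by simp [U_cell]
      have c3 : (U_cell k (2 * v + 2) t.2.2 : U_reg k m) ≠ Sum.inr 0 := by simp [U_cell]
      unfold U_trip
      rw [L1_runs_cons, L1_runs_cons, L1_runs_cons, L1_runs_cons, L1_runs_nil]
      simp only [Instr.run]
      refine ⟨?_, fun r hr hr0 => ?_⟩
      · simp only [Function.update_self, Function.update_of_ne c1, Function.update_of_ne c2,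
          Function.update_of_ne c3]
      · rw [Function.update_of_ne hr, Function.update_of_ne hr0, Function.update_of_ne hr0,
          Function.update_of_ne hr0]
    have hl := L1_loop (Y := Fin m) w (U_trip R k v) (fun c => U_cell k v c)
      (fun r => r ≠ Sum.inr 0 ∧ ∀ c, r ≠ U_cell k v c)
      (fun t s y => if t.1 = y then w (U_xi k v t.1 t.2.1 t.2.2) *
        s (U_cell k (2 * v + 1) t.2.1) * s (U_cell k (2 * v + 2) t.2.2) else 0)
      (by
        intro t s y
        by_cases hy : t.1 = y
        · subst hy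
          rw [if_pos rfl]
          exact (hrun t s).1
        · rw [if_neg hy, add_zero]
          exact (hrun t s).2 _ (U_cell_inj (Ne.symm hy)) (by simp [U_cell]))
      (by
        intro t s r hr
        exact (hrun t s).2 r (hr.2 _) hr.1)
      (by
        intro t s s' y hs
        have e1 : s (U_cell k (2 * v + 1) t.2.1) = s' (U_cell k (2 * v + 1) t.2.1) :=
          hs _ ⟨by simp [U_cell], fun c => U_cell_ne (by omega) hv (by omega) _ _⟩
        have e2 : s (U_cell k (2 * v + 2) t.2.2) = s' (U_cell k (2 * v + 2) t.2.2) :=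
          hs _ ⟨by simp [U_cell], fun c => U_cell_ne (by omega) hv (by omega) _ _⟩
        simp only [e1, e2])
      (univ : Finset (Fin m × Fin m × Fin m)).toList s
    refine ⟨fun c => ?_, fun r hr0 hr => hl.2 r ⟨hr0, hr⟩⟩
    rw [U_f_inner _ _ hkv]
    unfold U_inner
    rw [hl.1 c, h0 c, zero_add, Finset.sum_map_toList, Fintype.sum_prod_type]
    rw [Finset.sum_eq_single c]
    · rw [Fintype.sum_prod_type]
      refine Finset.sum_congr rfl fun a _ => Finset.sum_congr rfl fun b _ => ?_
      simp only [if_pos]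
      rw [h1 (2 * v + 1) (by omega) (by omega), h1 (2 * v + 2) (by omega) (by omega)]
    · intro c' _ hc'
      refine Finset.sum_eq_zero fun t _ => ?_
      rw [if_neg hc']
    · intro h
      exact absurd (Finset.mem_univ c) h

variable (R) in
/-- the program for the last `j` nodes -/
noncomputable def U_prog (m k : ℕ) : ℕ → List (Instr R (TVar (2 * k + 1) m) (U_reg k m))
  | 0 => []
  | j + 1 => U_prog m k j ++ U_block R m k (2 * k - j)

theorem U_prog_length (k j : ℕ) : (U_prog R m k j).length ≤ j * (4 * (m + 1) ^ 3) := by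
  induction j with
  | zero => simp [U_prog]
  | succ j ih =>
    rw [U_prog, List.length_append]
    have := U_block_length (R := R) (m := m) k (2 * k - j)
    nlinarith

theorem U_prog_run (k : ℕ) (w : TVar (2 * k + 1) m → R) : ∀ j ≤ 2 * k + 1,
    (∀ u, 2 * k + 1 ≤ u + j → u < 2 * k + 1 → ∀ c,
      runs w (U_prog R m k j) (fun _ => 0) (U_cell k u c) =
      U_f (fun v c a b => w (U_xi k v c a b)) (fun v c => w (U_xl k v c)) k u c) ∧
    (∀ u, u + j < 2 * k + 1 → ∀ c, runs w (U_prog R m k j) (fun _ => 0) (U_cell k u c) = 0) ∧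
    runs w (U_prog R m k j) (fun _ => 0) (Sum.inr 2) = 0 := by
  intro j
  induction j with
  | zero =>
    intro _
    refine ⟨fun u h1 h2 => by omega, fun u _ c => rfl, rfl⟩
  | succ j ih =>
    intro hj
    obtain ⟨i1, i2, i3⟩ := ih (by omega)
    rw [U_prog, L1_runs_append]
    obtain ⟨b1, b2⟩ := U_block_run k (2 * k - j) (by omega) w
      (runs w (U_prog R m k j) (fun _ => 0)) (i2 (2 * k - j) (by omega))
      (fun u hu hu' => i1 u (by omega) hu')
    refine ⟨fun u h1 h2 c => ?_, fun u h1 c => ?_, ?_⟩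
    · by_cases hu : u = 2 * k - j
      · rw [hu]
        exact b1 c
      · rw [b2 _ (by simp [U_cell]) (fun c' => U_cell_ne h2 (by omega) hu _ _)]
        exact i1 u (by omega) h2 c
    · rw [b2 _ (by simp [U_cell]) (fun c' => U_cell_ne (by omega) (by omega) (by omega) _ _)]
      exact i2 u (by omega) c
    · rw [b2 _ (by simp) (fun c => by simp [U_cell])]
      exact i3

theorem U_tree (k : ℕ) (d : Fin m) (w : TVar (2 * k + 1) m → R) :
    treeSum (fun v => (v - 1) / 2) w = U_S d (2 * k + 1)
      (U_F (fun v c a b => w (U_xi k v c a b)) (fun v c => w (U_xl k v c)) k) := by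
  unfold treeSum U_S
  refine Finset.sum_congr rfl fun φ _ => ?_
  have h1 : ∏ v : Fin (2 * k + 1), w (tv (fun v => (v - 1) / 2) φ v) =
      ∏ v ∈ range (2 * k + 1), w (tv (fun v => (v - 1) / 2) φ (U_nd k v)) := by
    rw [← Fin.prod_univ_eq_prod_range (fun v => w (tv (fun v => (v - 1) / 2) φ (U_nd k v)))]
    refine Finset.prod_congr rfl fun v _ => ?_
    congr 2
    apply Fin.ext
    rw [U_nd_val v.2]
  have hx : ∀ j (hj : j < 2 * k + 1), U_ext d φ j = φ ⟨j, hj⟩ := by
    intro j hj
    unfold U_ext
    rw [dif_pos hj]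
  rw [h1, Finset.range_eq_Ico, ← Finset.prod_Ico_consecutive _ (Nat.zero_le k)
    (by omega : k ≤ 2 * k + 1), ← Finset.range_eq_Ico]
  unfold U_F
  congr 1
  · refine Finset.prod_congr rfl fun v hv => ?_
    have hv' := Finset.mem_range.1 hv
    congr 1
    unfold tv U_xi
    refine Prod.ext rfl ?_
    funext j
    simp only
    rw [U_nd_val (by omega : v < 2 * k + 1), hx v (by omega), hx (2 * v + 1) (by omega),
      hx (2 * v + 2) (by omega)]
    by_cases c1 : j.val = v
    · have hj : j = U_nd k v := Fin.ext (by rw [c1, U_nd_val (by omega)])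
      rw [if_pos (Or.inl hj), if_pos c1]
      congr 2
      exact Fin.ext c1
    · have hj : j ≠ U_nd k v := fun h => c1 (by rw [h, U_nd_val (by omega)])
      rw [if_neg c1]
      by_cases c2 : j.val = 2 * v + 1
      · rw [if_pos (Or.inr ⟨by omega, by omega⟩), if_pos c2]
        congr 2
        exact Fin.ext c2
      · rw [if_neg c2]
        by_cases c3 : j.val = 2 * v + 2
        · rw [if_pos (Or.inr ⟨by omega, by omega⟩), if_pos c3]
          congr 2
          exact Fin.ext c3
        · rw [if_neg c3, if_neg]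
          rintro (h | h)
          · exact hj h
          · omega
  · refine Finset.prod_congr rfl fun v hv => ?_
    have hv' := Finset.mem_Ico.1 hv
    congr 1
    unfold tv U_xl
    refine Prod.ext rfl ?_
    funext j
    simp only
    rw [U_nd_val (by omega : v < 2 * k + 1), hx v (by omega)]
    by_cases c1 : j.val = v
    · have hj : j = U_nd k v := Fin.ext (by rw [c1, U_nd_val (by omega)])
      rw [if_pos (Or.inl hj), if_pos c1]
      congr 2
      exact Fin.ext c1
    · have hj : j ≠ U_nd k v := fun h => c1 (by rw [h, U_nd_val (by omega)])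
      rw [if_neg c1, if_neg]
      rintro (h | h)
      · exact hj h
      · have := j.2
        omega

end UB

theorem tree_upper {R : Type} [CommSemiring R] (k m : ℕ) :
    ∃ (ρ : Type) (_ : Fintype ρ) (_ : DecidableEq ρ)
      (p : List (Instr R (TVar (2 * k + 1) m) ρ)) (o : ρ),
      Fintype.card ρ = (2 * k + 1) * m + 3 ∧ p.length ≤ 10 * (2 * k + 1) * (m + 1) ^ 3 ∧
      ∀ w : TVar (2 * k + 1) m → R, exec w p o = treeSum (fun v => (v - 1) / 2) w := by
  have hcard : Fintype.card (U_reg k m) = (2 * k + 1) * m + 3 := by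
    rw [Fintype.card_sum, Fintype.card_prod, Fintype.card_fin, Fintype.card_fin, Fintype.card_fin]
  rcases Nat.eq_zero_or_pos m with hm | hm
  · subst hm
    refine ⟨U_reg k 0, inferInstance, inferInstance, [], Sum.inr 2, hcard, by simp, ?_⟩
    intro w
    have : IsEmpty (Fin (2 * k + 1) → Fin 0) := ⟨fun f => (f 0).elim0⟩
    unfold treeSum exec
    rw [Fintype.sum_empty]
    rfl
  · let fin : List (Instr R (TVar (2 * k + 1) m) (U_reg k m)) :=
      (univ : Finset (Fin m)).toList.flatMap
        fun c => [Instr.add (Sum.inr 2) (Sum.inr 2) (U_cell k 0 c)]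
    refine ⟨U_reg k m, inferInstance, inferInstance, U_prog R m k (2 * k + 1) ++ fin, Sum.inr 2,
      hcard, ?_, ?_⟩
    · rw [List.length_append]
      have h1 := U_prog_length (R := R) (m := m) k (2 * k + 1)
      have h2 : fin.length ≤ m := by
        have h := L1_len_flatMap (R := R) (X := TVar (2 * k + 1) m) (ρ := U_reg k m)
          (fun c : Fin m => [Instr.add (Sum.inr 2) (Sum.inr 2) (U_cell k 0 c)])
          (univ : Finset (Fin m)).toList 1 (fun _ => by simp)
        rwa [Finset.length_toList, Finset.card_univ, Fintype.card_fin, mul_one] at h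
      have h3 : m ≤ (m + 1) ^ 3 := (Nat.le_succ m).trans (Nat.le_self_pow (by norm_num) _)
      set c := (m + 1) ^ 3 with hc
      nlinarith
    · intro w
      obtain ⟨i1, -, i3⟩ := U_prog_run (R := R) (m := m) k w (2 * k + 1) le_rfl
      have hf := L1_loop (Y := Unit) w
        (fun c : Fin m => [Instr.add (Sum.inr 2) (Sum.inr 2) (U_cell k 0 c)])
        (fun _ => (Sum.inr 2 : U_reg k m)) (fun r => ∃ c, r = U_cell k 0 c)
        (fun c v _ => v (U_cell k 0 c))
        (by
          intro c v y
          rw [L1_runs_cons, L1_runs_nil]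
          simp only [Instr.run, Function.update_self])
        (by
          rintro c v r ⟨c', rfl⟩
          rw [L1_runs_cons, L1_runs_nil]
          simp only [Instr.run]
          rw [Function.update_of_ne (by simp [U_cell])])
        (by
          intro c v v' y hvv
          exact hvv _ ⟨c, rfl⟩)
        (univ : Finset (Fin m)).toList (runs w (U_prog R m k (2 * k + 1)) (fun _ => 0))
      have e1 : exec w (U_prog R m k (2 * k + 1) ++ fin) (Sum.inr 2) =
          runs w fin (runs w (U_prog R m k (2 * k + 1)) (fun _ => 0)) (Sum.inr 2) := by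
        unfold exec
        rw [L1_runs_append]
      rw [e1]
      simp only [fin]
      rw [hf.1 (), i3, zero_add, Finset.sum_map_toList, U_tree k ⟨0, hm⟩ w, U_val]
      refine Finset.sum_congr rfl fun c _ => ?_
      rw [i1 0 (by omega) (by omega)]

end Pool.Agent.H564R3.TE
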